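import Mathlib

set_option autoImplicit false

namespace Pool.Agent.Results.MP_49fec2_al.Counter

def Sat (W : Set (FreeGroup ℕ)) (H : Type) [Group H] : Prop :=
  ∀ w ∈ W, ∀ f : FreeGroup ℕ →* H, f w = 1

def verbal (W : Set (FreeGroup ℕ)) (m : ℕ) : Subgroup (FreeGroup (Fin m)) :=
  Subgroup.normalClosure {u | ∃ w ∈ W, ∃ f : FreeGroup ℕ →* FreeGroup (Fin m), f w = u}

instance (W : Set (FreeGroup ℕ)) (m : ℕ) : (verbal W m).Normal :=
  Subgroup.normalClosure_normal

abbrev RelFree (W : Set (FreeGroup ℕ)) (m : ℕ) : Type := FreeGroup (Fin m) ⧸ verbal W m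

@[ext] structure E where
  c : ZMod 4
  a : ZMod 2
  b : ZMod 2
deriving DecidableEq, Fintype

def tw (b a : ZMod 2) : ZMod 4 := if b = 1 ∧ a = 1 then 2 else 0

instance : Mul E := ⟨fun x y => ⟨x.c + y.c + tw x.b y.a, x.a + y.a, x.b + y.b⟩⟩
instance : One E := ⟨⟨0, 0, 0⟩⟩
instance : Inv E := ⟨fun x => ⟨-x.c + tw x.b x.a, x.a, x.b⟩⟩

instance : Group E := Group.ofLeftAxioms (by decide +kernel) (by decide +kernel)
  (by decide +kernel)

abbrev V := Multiplicative (ZMod 5 × ZMod 5)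

def act (e : E) (v : ZMod 5 × ZMod 5) : ZMod 5 × ZMod 5 :=
  let s : ZMod 5 := 2 ^ e.c.val
  let t : ZMod 5 := if e.b = 1 then -1 else 1
  if e.a = 1 then (s * (t * v.2), s * v.1) else (s * v.1, s * (t * v.2))

theorem act_mul : ∀ (e f : E) (v : ZMod 5 × ZMod 5), act (e * f) v = act e (act f v) := by
  decide +kernel
theorem act_one : ∀ v : ZMod 5 × ZMod 5, act 1 v = v := by decide +kernel
theorem act_add (e : E) (v w : ZMod 5 × ZMod 5) : act e (v + w) = act e v + act e w := by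
  unfold act
  by_cases h : e.a = 1 <;> simp [h, mul_add]

def phi : E →* MulAut V where
  toFun e :=
    { toFun := fun v => Multiplicative.ofAdd (act e v.toAdd)
      invFun := fun v => Multiplicative.ofAdd (act e⁻¹ v.toAdd)
      left_inv := fun v => by simp [← act_mul, act_one]
      right_inv := fun v => by simp [← act_mul, act_one]
      map_mul' := fun v w => by simp [act_add] }
  map_one' := by ext v <;> simp [act_one]
  map_mul' e f := by ext v <;> simp [act_mul]

abbrev H := V ⋊[phi] E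

instance : Finite H := Finite.of_equiv _ (SemidirectProduct.equivProd).symm

def z : E := ⟨2, 0, 0⟩

theorem z_mem : ∀ e : E, e ≠ 1 → e = z ∨ e * e = z ∨ ∃ f : E, f * e * f⁻¹ * e⁻¹ = z := by
  decide +kernel

theorem act_z : ∀ v, act z v = -v := by decide +kernel

def gen : Fin 3 → E := ![⟨0, 1, 0⟩, ⟨0, 0, 1⟩, ⟨1, 0, 0⟩]

def par (c : ZMod 4) : ZMod 2 := (c.val : ZMod 2)

def chiF (l : ZMod 2 × ZMod 2 × ZMod 2) (e : E) : ZMod 2 :=
  l.1 * e.a + l.2.1 * e.b + l.2.2 * par e.c

theorem chiF_mul : ∀ l (e f : E), chiF l (e * f) = chiF l e + chiF l f := by decide +kernel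

def chi (l : ZMod 2 × ZMod 2 × ZMod 2) : E →* Multiplicative (ZMod 2) :=
  MonoidHom.mk' (fun e => Multiplicative.ofAdd (chiF l e)) (fun e f => by
    rw [chiF_mul]; rfl)

theorem exists_chi : ∀ s t : E, ∃ l, chiF l s = 0 ∧ chiF l t = 0 ∧ ∃ i, chiF l (gen i) ≠ 0 := by
  decide +kernel

theorem two_gen {A : Type} [Group A] (s : Finset A) (hs : s.card ≤ 2) :
    ∃ x y : A, ∀ u ∈ s, u = x ∨ u = y := by
  classical
  have h : s.card = 0 ∨ s.card = 1 ∨ s.card = 2 := by omega
  rcases h with h | h | h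
  · rw [Finset.card_eq_zero] at h
    subst h
    exact ⟨1, 1, by simp⟩
  · obtain ⟨x, rfl⟩ := Finset.card_eq_one.1 h
    exact ⟨x, x, by simp⟩
  · obtain ⟨x, y, _, rfl⟩ := Finset.card_eq_two.1 h
    exact ⟨x, y, by simp⟩

def laws (G : Type) [Group G] : Set (FreeGroup ℕ) := {w | ∀ f : FreeGroup ℕ →* G, f w = 1}

def lft {W : Set (FreeGroup ℕ)} {A : Type} [Group A] (hA : Sat W A) {m : ℕ} (g : Fin m → A) :
    RelFree W m →* A :=
  QuotientGroup.lift _ (FreeGroup.lift g) (by
    refine Subgroup.normalClosure_le_normal (N := (FreeGroup.lift g).ker) ?_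
    rintro u ⟨w, hw, f, rfl⟩
    exact hA w hw ((FreeGroup.lift g).comp f))

theorem lft_of {W : Set (FreeGroup ℕ)} {A : Type} [Group A] (hA : Sat W A) {m : ℕ}
    (g : Fin m → A) (i : Fin m) :
    lft hA g (QuotientGroup.mk (FreeGroup.of i)) = g i := by
  simp [lft]

theorem finite_relFree (G : Type) [Group G] [Finite G] (m : ℕ) :
    Finite (RelFree (laws G) m) := by
  have hG : Sat (laws G) G := fun w hw f => hw f
  refine Finite.of_injective (fun (x : RelFree (laws G) m) (g : Fin m → G) => lft hG g x) ?_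
  intro x y hxy
  obtain ⟨x, rfl⟩ := QuotientGroup.mk_surjective x
  obtain ⟨y, rfl⟩ := QuotientGroup.mk_surjective y
  rw [QuotientGroup.eq]
  apply Subgroup.subset_normalClosure
  refine ⟨FreeGroup.map Fin.val (x⁻¹ * y), fun f => ?_,
    FreeGroup.lift (fun n => if h : n < m then FreeGroup.of ⟨n, h⟩ else 1), ?_⟩
  · have h1 := congrFun hxy (fun i => f (FreeGroup.of i.val))
    have h2 : f.comp (FreeGroup.map Fin.val) =
        FreeGroup.lift (fun i : Fin m => f (FreeGroup.of i.val)) := by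
      ext i; simp
    have h3 : FreeGroup.lift (fun i : Fin m => f (FreeGroup.of i.val)) x =
        FreeGroup.lift (fun i : Fin m => f (FreeGroup.of i.val)) y := h1
    have h4 : f (FreeGroup.map Fin.val (x⁻¹ * y)) =
      FreeGroup.lift (fun i : Fin m => f (FreeGroup.of i.val)) (x⁻¹ * y) := by
      rw [← h2]; rfl
    rw [h4, map_mul, map_inv, h3, inv_mul_cancel]
  · have h2 : (FreeGroup.lift (fun n => if h : n < m then FreeGroup.of (⟨n, h⟩ : Fin m)
        else 1)).comp (FreeGroup.map Fin.val) = MonoidHom.id _ := by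
      ext i; simp
    exact DFunLike.congr_fun h2 _

theorem generates (n : ℕ) (w : FreeGroup ℕ)
    (hw : ∀ f : FreeGroup ℕ →* RelFree (laws (Equiv.Perm (Fin (n + 2)))) 2, f w = 1) :
    w ∈ laws (Equiv.Perm (Fin (n + 2))) := by
  intro f
  have hG : Sat (laws (Equiv.Perm (Fin (n + 2)))) (Equiv.Perm (Fin (n + 2))) :=
    fun w hw f => hw f
  let p := lft hG ![finRotate (n + 2), Equiv.swap 0 (finRotate (n + 2) 0)]
  have hp : Function.Surjective p := by
    rw [← MonoidHom.range_eq_top, eq_top_iff,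
      ← Equiv.Perm.closure_cycle_adjacent_swap isCycle_finRotate support_finRotate 0,
      Subgroup.closure_le]
    rintro x (rfl | rfl)
    · exact ⟨_, lft_of hG _ 0⟩
    · exact ⟨_, lft_of hG _ 1⟩
  choose s hs using hp
  have h2 : p.comp (FreeGroup.lift fun i => s (f (FreeGroup.of i))) = f := by
    ext i : 1; simp [hs]
  rw [← h2, MonoidHom.comp_apply, hw, map_one]

theorem H_sat : ∃ n : ℕ, Sat (laws (Equiv.Perm (Fin (n + 2)))) H := by
  obtain ⟨m, ⟨e⟩⟩ := Finite.exists_equiv_fin (H ⊕ Fin 2)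
  have hm : m = Nat.card H + 2 := by
    have := Nat.card_congr e
    simp only [Nat.card_sum, Nat.card_eq_fintype_card, Fintype.card_fin] at this
    omega
  subst hm
  refine ⟨Nat.card H, fun w hw f => ?_⟩
  let i1 : H →* Equiv.Perm H := MulAction.toPermHom H H
  let i2 : Equiv.Perm H →* Equiv.Perm (Fin (Nat.card H + 2)) :=
    Equiv.Perm.viaEmbeddingHom (Function.Embedding.inl.trans e.toEmbedding)
  have h1 : Function.Injective i1 := MulAction.toPerm_injective
  have h2 : Function.Injective i2 := Equiv.Perm.viaEmbeddingHom_injective _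
  apply h1
  apply h2
  rw [map_one, map_one]
  exact hw (i2.comp (i1.comp f))

def hgen : Fin 3 → H := fun i =>
  ⟨if i = 0 then Multiplicative.ofAdd (1, 0) else 1, gen i⟩

theorem step {F : Type} [Group F] (p : F →* H) (x : Fin 3 → F) (hx : ∀ i, p (x i) = hgen i)
    (N : Subgroup F) [hN : N.Normal] (s : Finset (F ⧸ N)) (hs : s.card ≤ 2)
    (hc : Subgroup.closure (s : Set (F ⧸ N)) = ⊤)
    (hsurj : ∀ e : E, ∃ y : F, (p y).right = e) : ∃ h ∈ N, (p h).right = z := by
  let ε : F →* E := SemidirectProduct.rightHom.comp p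
  have hε : ∀ y, ε y = (p y).right := fun _ => rfl
  by_cases h1 : ∀ h ∈ N, ε h = 1
  · exfalso
    let ε' : F ⧸ N →* E := QuotientGroup.lift N ε h1
    obtain ⟨u, v, huv⟩ := two_gen s hs
    obtain ⟨l, hu, hv, i, hi⟩ := exists_chi (ε' u) (ε' v)
    have hk : ((chi l).comp ε').ker = ⊤ := by
      rw [eq_top_iff, ← hc, Subgroup.closure_le]
      intro t ht
      rcases huv t ht with rfl | rfl
      · exact congrArg Multiplicative.ofAdd hu
      · exact congrArg Multiplicative.ofAdd hv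
    have h2 : (QuotientGroup.mk (x i) : F ⧸ N) ∈ ((chi l).comp ε').ker := by
      rw [hk]; trivial
    have h3 : chi l (p (x i)).right = 1 := h2
    rw [hx] at h3
    exact hi (congrArg Multiplicative.toAdd h3)
  · push Not at h1
    obtain ⟨h, hh, hne⟩ := h1
    rcases z_mem _ hne with h2 | h2 | ⟨f, h2⟩
    · exact ⟨h, hh, h2⟩
    · exact ⟨h * h, N.mul_mem hh hh, by rw [← hε, map_mul]; exact h2⟩
    · obtain ⟨y, rfl⟩ := hsurj f
      refine ⟨y * h * y⁻¹ * h⁻¹, N.mul_mem (hN.conj_mem h hh y) (N.inv_mem hh), ?_⟩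
      rw [← hε, map_mul, map_mul, map_mul, map_inv, map_inv]
      exact h2

theorem comm_ne (g h : H) (hg : g.right = 1) (hg' : g ≠ 1) (hh : h.right = z) :
    (g * h * g⁻¹ * h⁻¹).right = 1 ∧ g * h * g⁻¹ * h⁻¹ ≠ 1 := by
  obtain ⟨v, e⟩ := g
  obtain ⟨u, f⟩ := h
  simp only at hg hh
  subst hg hh
  have hv : v ≠ 1 := fun h => hg' (by rw [h]; rfl)
  refine ⟨by simp, fun h => hv ?_⟩
  have h1 := congrArg SemidirectProduct.left h
  have key : ∀ u v : V, ((⟨v, 1⟩ : H) * ⟨u, z⟩ * (⟨v, 1⟩ : H)⁻¹ * (⟨u, z⟩ : H)⁻¹).left =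
      (1 : H).left → v = 1 := by decide +kernel
  exact key u v h1

theorem E_gen : ∀ e : E, ∃ i j l : Fin 4,
    e = gen 0 ^ i.val * gen 1 ^ j.val * gen 2 ^ l.val := by decide +kernel

theorem result : ∃ (W : Set (FreeGroup ℕ)) (k n : ℕ), k < n ∧
    (∀ w : FreeGroup ℕ, (∀ f : FreeGroup ℕ →* RelFree W k, f w = 1) →
      ∀ (A : Type) [Group A], Sat W A → ∀ f : FreeGroup ℕ →* A, f w = 1) ∧
    ∃ g : RelFree W n, g ≠ 1 ∧ ∀ (N : Subgroup (RelFree W n)) [N.Normal],
      (∃ s : Finset (RelFree W n ⧸ N), s.card ≤ k ∧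
        Subgroup.closure (s : Set (RelFree W n ⧸ N)) = ⊤) → g ∈ N := by
  classical
  obtain ⟨n, hn⟩ := H_sat
  refine ⟨laws (Equiv.Perm (Fin (n + 2))), 2, 3, by norm_num,
    fun w hw A _ hA f => hA w (generates n w hw) f, ?_⟩
  have := finite_relFree (Equiv.Perm (Fin (n + 2))) 3
  let p := lft hn hgen
  let x : Fin 3 → RelFree (laws (Equiv.Perm (Fin (n + 2)))) 3 :=
    fun i => QuotientGroup.mk (FreeGroup.of i)
  have hx : ∀ i, p (x i) = hgen i := fun i => lft_of hn hgen i
  have hsurj : ∀ e : E, ∃ y, (p y).right = e := by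
    intro e
    obtain ⟨i, j, l, rfl⟩ := E_gen e
    refine ⟨x 0 ^ i.val * x 1 ^ j.val * x 2 ^ l.val, ?_⟩
    change SemidirectProduct.rightHom (p _) = _
    simp only [map_mul, map_pow, hx]
    rfl
  have key : ∀ T : Finset (Subgroup (RelFree (laws (Equiv.Perm (Fin (n + 2)))) 3)),
      ∃ g, (p g).right = 1 ∧ p g ≠ 1 ∧ ∀ N ∈ T, ∀ [N.Normal],
        (∃ s : Finset (_ ⧸ N), s.card ≤ 2 ∧ Subgroup.closure (s : Set (_ ⧸ N)) = ⊤) →
          g ∈ N := by
    intro T
    induction T using Finset.induction_on with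
    | empty =>
      refine ⟨x 0 * x 2 * (x 0)⁻¹ * (x 2)⁻¹, ?_, ?_, by simp⟩
      · simp only [map_mul, map_inv, hx]; decide +kernel
      · simp only [map_mul, map_inv, hx]
        intro h
        have := congrArg SemidirectProduct.left h
        revert this
        decide +kernel
    | insert N T hNT ih =>
      obtain ⟨g, hg1, hg2, hg3⟩ := ih
      by_cases hgood : ∃ _ : N.Normal, ∃ s : Finset (_ ⧸ N), s.card ≤ 2 ∧
          Subgroup.closure (s : Set (_ ⧸ N)) = ⊤
      · obtain ⟨hN, s, hs, hc⟩ := hgood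
        obtain ⟨h, hh, hz⟩ := step p x hx N s hs hc hsurj
        have hcm := comm_ne (p g) (p h) hg1 hg2 hz
        refine ⟨g * h * g⁻¹ * h⁻¹, by simpa only [map_mul, map_inv] using hcm.1,
          by simpa only [map_mul, map_inv] using hcm.2, ?_⟩
        intro M hM hMn hMs
        rcases Finset.mem_insert.1 hM with rfl | hM
        · exact M.mul_mem (hN.conj_mem h hh g) (M.inv_mem hh)
        · have h1 := hg3 M hM hMs
          have h2 := hMn.conj_mem _ (M.inv_mem h1) h
          have h3 := M.mul_mem h1 h2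
          simpa only [mul_assoc] using h3
      · refine ⟨g, hg1, hg2, ?_⟩
        intro M hM hMn hMs
        rcases Finset.mem_insert.1 hM with rfl | hM
        · exact absurd ⟨hMn, hMs⟩ hgood
        · exact hg3 M hM hMs
  have : Fintype (Subgroup (RelFree (laws (Equiv.Perm (Fin (n + 2)))) 3)) := Fintype.ofFinite _
  obtain ⟨g, _, hg2, hg3⟩ := key Finset.univ
  exact ⟨g, fun h => hg2 (by rw [h, map_one]), fun N _ hs => hg3 N (Finset.mem_univ _) hs⟩

end Pool.Agent.Results.MP_49fec2_al.Counter
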